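import Mathlib
import Pool.Agent.H.MP_f8852a_lc.Defs
import Pool.Agent.H.MP_f8852a_lc.Final

/-!
Positive answer to Q1: there is a compact metrizable space that has strong computable type and
infinitely many connected components.
-/

namespace Pool.Agent.Results.MP_f8852a_lc.InfinitelyManyComponents

open Pool.Agent.H.MP_f8852a_lc

theorem result : ∃ (X : Type) (_ : TopologicalSpace X), CompactSpace X ∧
    TopologicalSpace.MetrizableSpace X ∧ Infinite (ConnectedComponents X) ∧
    StrongComputableType X :=
  main

end Pool.Agent.Results.MP_f8852a_lc.InfinitelyManyComponents
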